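import Pool.Agent.Helper34.PU.Edge

set_option autoImplicit false

open scoped Classical

namespace Pool.Agent.Results.MP_8060f4_co.ExponentAllDegrees

open Pool.Agent.Helper34.PU

/-- `G` is universal for the family of all graphs on `n` vertices with maximum degree at most `Δ`:
it contains a copy (not necessarily induced) of each of them -/
def IsUniversal {V : Type} (n Δ : ℕ) (G : SimpleGraph V) : Prop :=
  ∀ H : SimpleGraph (Fin n), (∀ v, (H.neighborSet v).ncard ≤ Δ) → H.IsContained G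

/-- `G` is `r`-partition universal for the family of all graphs on `n` vertices with maximum degree
at most `Δ`: in every colouring of its edges with `r` colours some colour class is universal -/
def IsPartitionUniversal {V : Type} (r n Δ : ℕ) (G : SimpleGraph V) : Prop :=
  ∀ χ : G.edgeSet → Fin r, ∃ c : Fin r, IsUniversal n Δ (colourClass G χ c)

/-- for all `r ≥ 2`, `Δ ≥ 2` and `ε > 0` there are `r`-partition universal graphs with
`O(n ^ (2 - 2 / Δ + ε))` edges -/
theorem result (r Δ : ℕ) (hr : 2 ≤ r) (hΔ : 2 ≤ Δ) (ε : ℝ) (hε : 0 < ε) :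
    ∃ C : ℝ, ∀ n : ℕ, 1 ≤ n → ∃ (V : Type) (_ : Fintype V) (G : SimpleGraph V),
      IsPartitionUniversal r n Δ G ∧
        (G.edgeSet.ncard : ℝ) ≤ C * (n : ℝ) ^ (2 - 2 / (Δ : ℝ) + ε) := by
  obtain ⟨C, hC⟩ := main_gen host_all embed_all r Δ (by omega) (cover_ge2 Δ hΔ) ε hε
  refine ⟨C, fun n hn => ?_⟩
  obtain ⟨m, Q, G, hG1, hG2⟩ := hC n hn
  refine ⟨Fin Q × Fin m, inferInstance, G, fun χ => ?_, ?_⟩
  · obtain ⟨f, hf, hcopy⟩ := copy_of_sym (n := n) (by omega : 0 < r) G χ
    obtain ⟨c, hc⟩ := hG2 f hf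
    refine ⟨c, fun H hH => ?_⟩
    obtain ⟨g, hg, hE⟩ := hc H (maxDeg_of_ncard H hH)
    exact hcopy c H g hg hE
  · refine le_trans ?_ hG1
    exact_mod_cast edges_le G

end Pool.Agent.Results.MP_8060f4_co.ExponentAllDegrees
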